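import Mathlib

/-! Transfinite construction of a subgroup of a Boolean group that separates a pair in every
wild set. -/

set_option autoImplicit false
open Cardinal Set

namespace Pool.Agent.P.MP_19f369_gt

variable {G : Type} [AddCommGroup G] [Module (ZMod 2) G]

lemma zmod2_cases (a : ZMod 2) : a = 0 ∨ a = 1 := by
  revert a; decide

lemma add_self_zero (x : G) : x + x = 0 := by
  have h : (1 + 1 : ZMod 2) = 0 := by decide
  rw [← one_smul (ZMod 2) x, ← add_smul, h, zero_smul]

lemma mk_span_lt {s : Set G} (hs : #s < 𝔠) : #(Submodule.span (ZMod 2) s) < 𝔠 := by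
  have h : ((Submodule.span (ZMod 2) s : Submodule (ZMod 2) G) : Set G) ⊆
      range (fun l : List s => (l.map Subtype.val).sum) := by
    intro z hz
    induction hz using Submodule.span_induction with
    | mem x hx => exact ⟨[⟨x, hx⟩], by simp⟩
    | zero => exact ⟨[], by simp⟩
    | add x y _ _ hx hy =>
      obtain ⟨l, rfl⟩ := hx
      obtain ⟨l', rfl⟩ := hy
      exact ⟨l ++ l', by simp⟩
    | smul a x _ hx =>
      rcases zmod2_cases a with rfl | rfl
      · exact ⟨[], by simp⟩
      · simpa using hx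
  refine lt_of_le_of_lt ((mk_le_mk_of_subset h).trans (mk_range_le.trans (mk_list_le_max _))) ?_
  exact max_lt aleph0_lt_continuum hs

/-- A set of pairs is wild if it escapes every set of size less than the continuum in both
coordinates and in their sum. -/
def Wild (Γ : Set (G × G)) : Prop :=
  ∀ S : Set G, #S < 𝔠 → ∃ p ∈ Γ, p.1 ∉ S ∧ p.2 ∉ S ∧ p.1 + p.2 ∉ S

theorem exists_subgroup {W : Type} (hW : #W ≤ 𝔠) (Γ : W → Set (G × G)) (hΓ : ∀ w, Wild (Γ w)) :
    ∃ X : Submodule (ZMod 2) G, ∀ w, ∃ p ∈ Γ w, p.1 ∈ X ∧ p.2 ∉ X := by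
  classical
  obtain ⟨_, _, hord⟩ := Cardinal.exists_ord_eq_type_lt W
  have hsmall : ∀ (w : W) (F : ∀ v, v < w → G × G),
      #(Submodule.span (ZMod 2) ((range fun v : Iio w => (F v.1 v.2).1) ∪
        (range fun v : Iio w => (F v.1 v.2).2))) < 𝔠 := by
    intro w F
    have h1 : #(Iio w) < 𝔠 := (Cardinal.mk_Iio_lt w hord).trans_le hW
    refine mk_span_lt ((mk_union_le _ _).trans_lt ?_)
    exact add_lt_of_lt aleph0_le_continuum (mk_range_le.trans_lt h1) (mk_range_le.trans_lt h1)
  let step : ∀ w : W, (∀ v, v < w → G × G) → G × G := fun w F =>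
    (hΓ w _ (hsmall w F)).choose
  let F : W → G × G := (wellFounded_lt (α := W)).fix step
  have hF : ∀ w, F w = step w (fun v _ => F v) := fun w => WellFounded.fix_eq _ _ _
  let H : W → Submodule (ZMod 2) G := fun w =>
    Submodule.span (ZMod 2) ((range fun v : Iio w => (F v.1).1) ∪
        (range fun v : Iio w => (F v.1).2))
  have spec : ∀ w, F w ∈ Γ w ∧ (F w).1 ∉ H w ∧ (F w).2 ∉ H w ∧ (F w).1 + (F w).2 ∉ H w := by
    intro w
    have := (hΓ w _ (hsmall w (fun v _ => F v))).choose_spec
    rw [hF w]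
    exact this
  have H1 : ∀ v w, v < w → (F v).1 ∈ H w := fun v w h =>
    Submodule.subset_span (Or.inl ⟨⟨v, h⟩, rfl⟩)
  have H2 : ∀ v w, v < w → (F v).2 ∈ H w := fun v w h =>
    Submodule.subset_span (Or.inr ⟨⟨v, h⟩, rfl⟩)
  have Hmono : ∀ v w, v ≤ w → H v ≤ H w := by
    intro v w h
    refine Submodule.span_le.2 ?_
    rintro _ (⟨u, rfl⟩ | ⟨u, rfl⟩)
    · exact H1 _ _ (lt_of_lt_of_le u.2 h)
    · exact H2 _ _ (lt_of_lt_of_le u.2 h)
  refine ⟨Submodule.span (ZMod 2) (range fun w => (F w).1), fun w =>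
    ⟨F w, (spec w).1, Submodule.subset_span ⟨w, rfl⟩, ?_⟩⟩
  have key : ∀ T : Finset W, (F w).2 ∉ Submodule.span (ZMod 2) ((fun w => (F w).1) '' T) := by
    intro T
    induction T using Finset.induction_on_max with
    | empty =>
      intro h
      simp only [Finset.coe_empty, image_empty, Submodule.span_empty, Submodule.mem_bot] at h
      exact (spec w).2.2.1 (h ▸ (H w).zero_mem)
    | insert a T ha ih =>
      intro h
      rw [Finset.coe_insert, image_insert_eq, Submodule.mem_span_insert] at h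
      obtain ⟨c, z, hz, h⟩ := h
      rcases zmod2_cases c with rfl | rfl
      · rw [zero_smul, zero_add] at h
        exact ih (h ▸ hz)
      · rw [one_smul] at h
        have hzH : z ∈ H a := by
          refine Submodule.span_le.2 ?_ hz
          rintro _ ⟨u, hu, rfl⟩
          exact H1 _ _ (ha u hu)
        rcases lt_trichotomy w a with h' | rfl | h'
        · apply (spec a).2.1
          have : (F a).1 = (F w).2 - z := by rw [h]; abel
          rw [this]
          exact (H a).sub_mem (H2 _ _ h') hzH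
        · apply (spec w).2.2.2
          have : (F w).1 + (F w).2 = z := by
            rw [h, ← add_assoc, add_self_zero, zero_add]
          rw [this]
          exact hzH
        · apply (spec w).2.2.1
          rw [h]
          exact (H w).add_mem (H1 _ _ h') (Hmono _ _ h'.le hzH)
  intro h
  obtain ⟨T, hT, hz⟩ := Submodule.mem_span_finite_of_mem_span h
  obtain ⟨T', hT'⟩ := Finset.subset_set_image_iff.1
    (show (T : Set G) ⊆ (fun w => (F w).1) '' univ by rwa [image_univ])
  apply key T'
  rw [← hT'.2, Finset.coe_image] at hz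
  exact hz

lemma mk_closeds_le (Y : Type) [TopologicalSpace Y] [SecondCountableTopology Y] :
    #{C : Set Y // IsClosed C} ≤ 𝔠 := by
  have hB := TopologicalSpace.isBasis_countableBasis Y
  let φ : {C : Set Y // IsClosed C} → Set (TopologicalSpace.countableBasis Y) :=
    fun C => {b | b.1 ⊆ C.1ᶜ}
  have hφ : Function.Injective φ := by
    have aux : ∀ C D : {C : Set Y // IsClosed C}, φ C = φ D → C.1ᶜ ⊆ D.1ᶜ := by
      intro C D h x hx
      obtain ⟨b, hb, hxb, hbC⟩ := hB.exists_subset_of_mem_open hx C.2.isOpen_compl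
      have : (⟨b, hb⟩ : TopologicalSpace.countableBasis Y) ∈ φ D := by
        rw [← h]; exact hbC
      exact this hxb
    intro C D h
    exact Subtype.ext (compl_injective ((aux C D h).antisymm (aux D C h.symm)))
  refine (mk_le_of_injective hφ).trans ?_
  rw [mk_set, ← two_power_aleph0]
  exact power_le_power_left two_ne_zero mk_le_aleph0

theorem exists_subgroup_closed [TopologicalSpace G] [SecondCountableTopology G] :
    ∃ X : Submodule (ZMod 2) G, ∀ Γ : Set (G × G), IsClosed Γ → Wild Γ →
      ∃ p ∈ Γ, p.1 ∈ X ∧ p.2 ∉ X := by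
  have h : #{Γ : Set (G × G) // IsClosed Γ ∧ Wild Γ} ≤ 𝔠 :=
    (mk_subtype_mono fun _ h => h.1).trans (mk_closeds_le (G × G))
  obtain ⟨X, hX⟩ := exists_subgroup h (fun Γ => Γ.1) fun Γ => Γ.2.2
  exact ⟨X, fun Γ h1 h2 => hX ⟨Γ, h1, h2⟩⟩

end Pool.Agent.P.MP_19f369_gt
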