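import Mathlib
import Pool.Agent.P.MP_19f369_gt.Construct

/-! A subgroup of a compact Boolean group that separates a pair in every closed wild set is not
homeomorphic to a proper retract of itself. -/

set_option autoImplicit false
set_option linter.unusedSectionVars false
open Cardinal hiding univ
open Set Filter Topology MeasureTheory

namespace Pool.Agent.P.MP_19f369_gt

variable {G : Type} [AddCommGroup G] [Module (ZMod 2) G] [TopologicalSpace G]

lemma continuum_le_of_closed [PolishSpace G] {K : Set G} (hK : IsClosed K)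
    (h : ¬ K.Countable) : 𝔠 ≤ #K := by
  obtain ⟨f, hf, -, hinj⟩ := hK.exists_nat_bool_injection_of_not_countable h
  have h1 : #(ℕ → Bool) = 𝔠 := by simp
  rw [← h1, ← mk_range_eq f hinj]
  exact mk_le_mk_of_subset hf

lemma exists_not_mem_of_lt {K S : Set G} (h : #S < #K) : ∃ x ∈ K, x ∉ S := by
  by_contra hh
  push Not at hh
  exact absurd (mk_le_mk_of_subset hh) (not_le.2 h)

/-- The separation property of the subgroup built by transfinite recursion. -/
def Sep (X : Submodule (ZMod 2) G) : Prop :=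
  ∀ Γ : Set (G × G), IsClosed Γ → Wild Γ → ∃ p ∈ Γ, p.1 ∈ X ∧ p.2 ∉ X

lemma Sep.countable [PolishSpace G] {X : Submodule (ZMod 2) G} (hX : Sep X) {K : Set G}
    (hK : IsClosed K) (hd : ∀ x ∈ K, x ∉ X) : K.Countable := by
  by_contra h
  have hc := continuum_le_of_closed hK h
  have hw : Wild (K ×ˢ (univ : Set G)) := by
    intro S hS
    obtain ⟨x, hx, hxS⟩ := exists_not_mem_of_lt (hS.trans_le hc)
    have h2 : #(S ∪ (fun s => x + s) '' S : Set G) < 𝔠 :=
      (mk_union_le _ _).trans_lt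
        (add_lt_of_lt aleph0_le_continuum hS (mk_image_le.trans_lt hS))
    obtain ⟨y, -, hy⟩ := exists_not_mem_of_lt (h2.trans_le hc)
    refine ⟨(x, y), ⟨hx, mem_univ _⟩, hxS, fun h => hy (Or.inl h), fun h => hy (Or.inr ⟨_, h, ?_⟩)⟩
    simp only
    rw [← add_assoc, add_self_zero, zero_add]
  obtain ⟨p, hp, h1, -⟩ := hX _ (hK.prod isClosed_univ) hw
  exact hd _ hp.1 h1

lemma Sep.eq_univ [PolishSpace G] [MeasurableSpace G] (μ : Measure G) [μ.IsOpenPosMeasure]
    [NullSingletonClass μ] {X : Submodule (ZMod 2) G} (hX : Sep X) {C : Set G}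
    (hC : IsClosed C) (hXC : ∀ x ∈ X, x ∈ C) : C = univ := by
  by_contra h
  obtain ⟨x, hx⟩ := (ne_univ_iff_exists_notMem C).1 h
  obtain ⟨K, hK, hKc, hKC⟩ := exists_mem_nhds_isClosed_subset (hC.isOpen_compl.mem_nhds hx)
  have h1 := hX.countable hKc fun y hy hyX => hKC hy (hXC y hyX)
  exact (μ.measure_pos_of_mem_nhds hK).ne' (h1.measure_zero μ)

lemma mk_biUnion_lt {S : Set G} (hS : #S < 𝔠) {A : G → Set G} (hA : ∀ s, (A s).Countable) :
    #(⋃ s ∈ S, A s) < 𝔠 := by
  refine (mk_biUnion_le A S).trans_lt ?_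
  refine mul_lt_of_lt aleph0_le_continuum hS (lt_of_le_of_lt ?_ aleph0_lt_continuum)
  exact ciSup_le' fun s => le_aleph0_iff_set_countable.2 (hA s)

theorem Sep.surjective [PolishSpace G] [CompactSpace G] [IsTopologicalAddGroup G]
    [MeasurableSpace G] [BorelSpace G] (μ : Measure G) [μ.IsAddHaarMeasure]
    [NullSingletonClass μ] {X : Submodule (ZMod 2) G} (hX : Sep X)
    {f u : X → X} (hf : Continuous f) (hu : Continuous u) (huf : ∀ x, u (f x) = x) :
    Function.Surjective f := by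
  set Γ : Set (G × G) := closure (range fun x : X => ((x : G), (f x : G))) with hΓ
  have hΓc : IsClosed Γ := isClosed_closure
  have L1 : ∀ (x : X) (y : G), ((x : G), y) ∈ Γ → y = f x := by
    intro x y h
    obtain ⟨p, hp, hlim⟩ := mem_closure_iff_seq_limit.1 h
    choose a ha using hp
    have e : p = fun n => ((a n : G), (f (a n) : G)) := funext fun n => (ha n).symm
    rw [e] at hlim
    have t1 : Tendsto a atTop (𝓝 x) := tendsto_subtype_rng.2 hlim.fst_nhds
    have t2 : Tendsto (fun n => (f (a n) : G)) atTop (𝓝 (f x : G)) :=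
      ((continuous_subtype_val.comp hf).tendsto x).comp t1
    exact tendsto_nhds_unique hlim.snd_nhds t2
  have L2 : ∀ (x : G) (y : X), (x, (y : G)) ∈ Γ → x = u y := by
    intro x y h
    obtain ⟨p, hp, hlim⟩ := mem_closure_iff_seq_limit.1 h
    choose a ha using hp
    have e : p = fun n => ((a n : G), (f (a n) : G)) := funext fun n => (ha n).symm
    rw [e] at hlim
    have t1 : Tendsto (fun n => f (a n)) atTop (𝓝 y) := tendsto_subtype_rng.2 hlim.snd_nhds
    have t2 : Tendsto (fun n => (u (f (a n)) : G)) atTop (𝓝 (u y : G)) :=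
      ((continuous_subtype_val.comp hu).tendsto y).comp t1
    simp only [huf] at t2
    exact tendsto_nhds_unique hlim.fst_nhds t2
  have L3 : ∀ x y : G, (x, y) ∈ Γ → x ∈ X → y ∈ X := fun x y h hx => by
    rw [L1 ⟨x, hx⟩ y h]; exact (f _).2
  have L4 : ∀ x y : G, (x, y) ∈ Γ → y ∈ X → x ∈ X := fun x y h hy => by
    rw [L2 x ⟨y, hy⟩ h]; exact (u _).2
  have S1 : ∀ x : G, {y | (x, y) ∈ Γ}.Countable := by
    intro x
    by_cases hx : x ∈ X
    · exact (countable_singleton (f ⟨x, hx⟩ : G)).mono fun y hy => L1 ⟨x, hx⟩ y hy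
    · exact hX.countable (hΓc.preimage (by fun_prop)) fun y hy hyX => hx (L4 x y hy hyX)
  have S2 : ∀ y : G, {x | (x, y) ∈ Γ}.Countable := by
    intro y
    by_cases hy : y ∈ X
    · exact (countable_singleton (u ⟨y, hy⟩ : G)).mono fun x hx => L2 x ⟨y, hy⟩ hx
    · exact hX.countable (hΓc.preimage (by fun_prop)) fun x hx hxX => hy (L3 x y hx hxX)
  have hnw : ¬ Wild Γ := fun hw => by
    obtain ⟨p, hp, h1, h2⟩ := hX Γ hΓc hw
    exact h2 (L3 p.1 p.2 hp h1)
  unfold Wild at hnw
  push Not at hnw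
  obtain ⟨S, hS, hSΓ⟩ := hnw
  set D : Set G := (fun p : G × G => p.1 + p.2) '' Γ with hD
  have hDc : IsClosed D := (hΓc.isCompact.image (by fun_prop)).isClosed
  have hDcount : D.Countable := by
    by_contra h
    have h1 := continuum_le_of_closed hDc h
    have h2 : D ⊆ (S ∪ ⋃ s ∈ S, (fun y => s + y) '' {y | (s, y) ∈ Γ}) ∪
        ⋃ s ∈ S, (fun x => x + s) '' {x | (x, s) ∈ Γ} := by
      rintro _ ⟨p, hp, rfl⟩
      by_cases k1 : p.1 ∈ S
      · exact Or.inl (Or.inr (mem_biUnion k1 ⟨p.2, hp, rfl⟩))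
      by_cases k2 : p.2 ∈ S
      · exact Or.inr (mem_biUnion k2 ⟨p.1, hp, rfl⟩)
      · exact Or.inl (Or.inl (hSΓ p hp k1 k2))
    refine absurd (h1.trans (mk_le_mk_of_subset h2)) (not_le.2 ?_)
    refine (mk_union_le _ _).trans_lt (add_lt_of_lt aleph0_le_continuum ?_ ?_)
    · exact (mk_union_le _ _).trans_lt (add_lt_of_lt aleph0_le_continuum hS
        (mk_biUnion_lt hS fun s => (S1 s).image _))
    · exact mk_biUnion_lt hS fun s => (S2 s).image _
  set A : G → Set G := fun c => {y | (y + c, y) ∈ Γ} with hA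
  have hAc : ∀ c, IsClosed (A c) := fun c => hΓc.preimage (by fun_prop)
  have hfst : Prod.fst '' Γ = univ :=
    hX.eq_univ μ (hΓc.isCompact.image continuous_fst).isClosed fun x hx =>
      ⟨_, subset_closure ⟨⟨x, hx⟩, rfl⟩, rfl⟩
  have hcov : (univ : Set G) ⊆ ⋃ c ∈ D, (fun x => x + c) ⁻¹' A c := by
    intro x hx
    rw [← hfst] at hx
    obtain ⟨p, hp, rfl⟩ := hx
    refine mem_biUnion ⟨p, hp, rfl⟩ ?_
    have e1 : p.1 + (p.1 + p.2) = p.2 := by rw [← add_assoc, add_self_zero, zero_add]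
    have e2 : p.2 + (p.1 + p.2) = p.1 := by
      rw [add_comm p.1, ← add_assoc, add_self_zero, zero_add]
    simp only [hA, mem_preimage, mem_ofPred_eq]
    rw [e1, e2]
    exact hp
  have hdisj : D.Pairwise (Function.onFun (AEDisjoint μ) A) := by
    intro c _ c' _ hcc
    refine (hX.countable ((hAc c).inter (hAc c')) fun y hy hyX => hcc ?_).measure_zero μ
    have e1 := L2 _ ⟨y, hyX⟩ hy.1
    have e2 := L2 _ ⟨y, hyX⟩ hy.2
    exact add_left_cancel (e1.trans e2.symm)
  have hsub : (⋃ c ∈ D, A c) ⊆ Prod.snd '' Γ := by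
    intro y hy
    obtain ⟨c, -, hc⟩ := mem_iUnion₂.1 hy
    exact ⟨_, hc, rfl⟩
  have hBc : IsClosed (Prod.snd '' Γ) := (hΓc.isCompact.image continuous_snd).isClosed
  have hmeas : μ univ ≤ μ (Prod.snd '' Γ) :=
    calc μ univ ≤ μ (⋃ c ∈ D, (fun x => x + c) ⁻¹' A c) := measure_mono hcov
      _ ≤ ∑' c : D, μ ((fun x => x + (c : G)) ⁻¹' A c) := measure_biUnion_le μ hDcount _
      _ = ∑' c : D, μ (A c) := by simp only [measure_preimage_add_right]
      _ = μ (⋃ c ∈ D, A c) :=
        (measure_biUnion₀ hDcount hdisj fun c _ => (hAc c).measurableSet.nullMeasurableSet).symm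
      _ ≤ _ := measure_mono hsub
  have hcompl : μ (Prod.snd '' Γ)ᶜ = 0 := by
    rw [measure_compl hBc.measurableSet (measure_ne_top μ _)]
    exact tsub_eq_zero_of_le hmeas
  rw [hBc.isOpen_compl.measure_eq_zero_iff μ, compl_empty_iff] at hcompl
  intro y
  have hy : (y : G) ∈ Prod.snd '' Γ := hcompl ▸ mem_univ _
  obtain ⟨p, hp, hpy⟩ := hy
  have hp' : (p.1, (y : G)) ∈ Γ := by rw [← hpy]; exact hp
  have e := L2 _ y hp'
  rw [e] at hp'
  exact ⟨u y, Subtype.ext (L1 _ _ hp').symm⟩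

end Pool.Agent.P.MP_19f369_gt
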