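import Mathlib
import Pool.Agent.P.MP_19f369_gt.CoHopf

/-! Dimension zero, and failure of right boundedness for a co-Hopfian Boolean group. -/

set_option autoImplicit false
set_option linter.unusedSectionVars false
open Set Filter Topology MeasureTheory

namespace Pool.Agent.P.MP_19f369_gt

theorem dim_zero {X : Type} [TopologicalSpace X] [SecondCountableTopology X] [Nonempty X]
    (hb : ∀ (x : X) (U : Set X), IsOpen U → x ∈ U → ∃ C, IsClopen C ∧ x ∈ C ∧ C ⊆ U)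
    (𝒰 : Set (Set X)) (h1 : 𝒰.Finite) (h2 : ∀ U ∈ 𝒰, IsOpen U) (h3 : ⋃₀ 𝒰 = univ) :
    ∃ 𝒱 : Set (Set X), 𝒱.Finite ∧ (∀ V ∈ 𝒱, IsOpen V ∧ ∃ U ∈ 𝒰, V ⊆ U) ∧ ⋃₀ 𝒱 = univ ∧
      𝒱.PairwiseDisjoint id := by
  have h4 : ∀ x : X, ∃ U ∈ 𝒰, ∃ C, IsClopen C ∧ x ∈ C ∧ C ⊆ U := by
    intro x
    obtain ⟨U, hU, hx⟩ : x ∈ ⋃₀ 𝒰 := h3 ▸ mem_univ x
    exact ⟨U, hU, hb x U (h2 U hU) hx⟩
  choose U hU C hC hxC hCU using h4
  obtain ⟨s, hs, hcov⟩ := TopologicalSpace.countable_cover_nhds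
    (fun x => (hC x).isOpen.mem_nhds (hxC x))
  have hne : s.Nonempty := by
    obtain ⟨x⟩ := ‹Nonempty X›
    obtain ⟨y, hy, -⟩ := mem_iUnion₂.1 (hcov ▸ mem_univ x : x ∈ ⋃ y ∈ s, C y)
    exact ⟨y, hy⟩
  obtain ⟨c, rfl⟩ := hs.exists_eq_range hne
  let D : ℕ → Set X := fun n => C (c n) \ ⋃ m ∈ Iio n, C (c m)
  have hD : ∀ n, IsOpen (D n) := fun n =>
    (hC _).isOpen.sdiff ((finite_Iio n).isClosed_biUnion fun m _ => (hC _).isClosed)
  have hDd : ∀ n m x, x ∈ D n → x ∈ D m → n = m := by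
    intro n m x hn hm
    rcases lt_trichotomy n m with h | h | h
    · exact absurd (mem_biUnion (s := Iio m) (t := fun m => C (c m)) h hn.1) hm.2
    · exact h
    · exact absurd (mem_biUnion (s := Iio n) (t := fun m => C (c m)) h hm.1) hn.2
  have hDc : ∀ x, ∃ n, x ∈ D n := by
    classical
    intro x
    have hx : ∃ n, x ∈ C (c n) := by
      obtain ⟨_, ⟨n, rfl⟩, h⟩ := mem_iUnion₂.1 (hcov ▸ mem_univ x : x ∈ ⋃ y ∈ range c, C y)
      exact ⟨n, h⟩
    refine ⟨Nat.find hx, Nat.find_spec hx, fun h => ?_⟩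
    obtain ⟨m, hm, h⟩ := mem_iUnion₂.1 h
    exact Nat.find_min hx hm h
  let V : Set X → Set X := fun W => ⋃ n ∈ {n | U (c n) = W}, D n
  refine ⟨V '' 𝒰, h1.image _, ?_, ?_, ?_⟩
  · rintro _ ⟨W, hW, rfl⟩
    refine ⟨isOpen_biUnion fun n _ => hD n, W, hW, fun x hx => ?_⟩
    obtain ⟨n, hn, h⟩ := mem_iUnion₂.1 hx
    have hn' : U (c n) = W := hn
    rw [← hn']
    exact hCU _ h.1
  · refine eq_univ_of_forall fun x => ?_
    obtain ⟨n, hn⟩ := hDc x
    exact ⟨V (U (c n)), ⟨_, hU _, rfl⟩, mem_biUnion (s := {m | U (c m) = U (c n)}) rfl hn⟩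
  · rintro _ ⟨W, -, rfl⟩ _ ⟨W', -, rfl⟩ hne
    refine disjoint_left.2 fun x hx hx' => hne ?_
    obtain ⟨n, hn, h⟩ := mem_iUnion₂.1 hx
    obtain ⟨m, hm, h'⟩ := mem_iUnion₂.1 hx'
    have hn' : U (c n) = W := hn
    have hm' : U (c m) = W' := hm
    rw [← hn', ← hm', hDd n m x h h']

theorem not_bounded {X : Type} [AddCommGroup X] [Module (ZMod 2) X] [TopologicalSpace X]
    [IsTopologicalAddGroup X] [T1Space X]
    (hb : ∀ (x : X) (U : Set X), IsOpen U → x ∈ U → ∃ C, IsClopen C ∧ x ∈ C ∧ C ⊆ U)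
    (φ : X →+ ZMod 2) (hφ : Continuous φ)
    (hinf : ∀ Y : Set X, Y.Finite → ∃ e, φ e = 1 ∧ e ∉ Y)
    (hco : ∀ f u : X → X, Continuous f → Continuous u → (∀ x, u (f x) = x) →
      Function.Surjective f) :
    ¬ ∀ U ∈ 𝓝 (⟨id, continuous_id⟩ : {f : X → X // Continuous f}),
      ∃ F : Set {f : X → X // Continuous f}, F.Finite ∧
        ∀ g : {f : X → X // Continuous f}, ∃ u ∈ U, ∃ f ∈ F, g.1 = u.1 ∘ f.1 := by
  classical
  intro H
  have hU : {u : {f : X → X // Continuous f} | φ (u.1 0) = 0} ∈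
      𝓝 (⟨id, continuous_id⟩ : {f : X → X // Continuous f}) := by
    have hc : Continuous fun u : {f : X → X // Continuous f} => φ (u.1 0) :=
      hφ.comp ((continuous_apply 0).comp continuous_subtype_val)
    refine ((isOpen_discrete {(0 : ZMod 2)}).preimage hc).mem_nhds ?_
    simp
  obtain ⟨F, hF, HF⟩ := H _ hU
  let z : {f : X → X // Continuous f} → X := fun f =>
    if h : ∃ y, f.1 y = 0 then h.choose else 0
  have hz : ∀ f : {f : X → X // Continuous f}, (∃ y, f.1 y = 0) → f.1 (z f) = 0 := by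
    intro f h
    simp only [z, dif_pos h]
    exact h.choose_spec
  set Y : Set X := z '' F with hY
  have hYf : Y.Finite := hF.image _
  obtain ⟨e, he1, he2⟩ := hinf _ (hYf.image2 (fun a b => a + b) hYf)
  set Y1 : Set X := {y ∈ Y | φ y = 1} with hY1
  have hY1f : Y1.Finite := hYf.subset fun y hy => hy.1
  have hsep : ∀ a : X, a ∉ Y1 → ∃ C, IsClopen C ∧ a ∈ C ∧ C ⊆ Y1ᶜ := fun a ha =>
    hb a _ hY1f.isClosed.isOpen_compl ha
  choose! C hC haC hCY using hsep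
  set A : Set X := {y ∈ Y | φ y = 0} ∪ (fun y => y + e) '' {y ∈ Y | φ y = 0} with hA
  have hAf : A.Finite :=
    (hYf.subset fun y hy => hy.1).union ((hYf.subset fun y hy => hy.1).image _)
  have hAY : ∀ a ∈ A, a ∉ Y1 := by
    rintro a (ha | ⟨y, hy, rfl⟩) h
    · exact zero_ne_one (ha.2.symm.trans h.2)
    · refine he2 ⟨y, hy.1, y + e, h.1, ?_⟩
      simp only
      rw [← add_assoc, add_self_zero, zero_add]
  set W' : Set X := ⋃ a ∈ A, C a with hW'
  have hW'c : IsClopen W' := hAf.isClopen_biUnion fun a ha => hC a (hAY a ha)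
  set W : Set X := W' ∩ (fun x => x + e) ⁻¹' W' with hW
  have hWc : IsClopen W := hW'c.inter (hW'c.preimage (by fun_prop))
  have hee : ∀ x : X, x + e + e = x := fun x => by rw [add_assoc, add_self_zero, add_zero]
  have hWe : ∀ x ∈ W, x + e ∈ W := fun x hx => ⟨hx.2, by
    simp only [mem_preimage, hee]; exact hx.1⟩
  let g : X → X := fun x => if x ∈ W then x + e else x
  have hg : Continuous g := by
    refine Continuous.if (fun a ha => ?_) (by fun_prop) continuous_id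
    have : frontier W = ∅ := hWc.frontier_eq
    exact absurd (show a ∈ frontier W from ha) (by rw [this]; exact notMem_empty a)
  have hgg : ∀ x, g (g x) = x := by
    intro x
    by_cases hx : x ∈ W
    · simp only [g, if_pos hx, if_pos (hWe x hx), hee]
    · simp only [g, if_neg hx]
  have hgY : ∀ y ∈ Y, φ (g y) = 1 := by
    intro y hy
    rcases zmod2_cases (φ y) with h | h
    · have h1 : y ∈ A := Or.inl ⟨hy, h⟩
      have h2 : y + e ∈ A := Or.inr ⟨y, ⟨hy, h⟩, rfl⟩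
      have : y ∈ W := ⟨mem_biUnion h1 (haC _ (hAY _ h1)), mem_biUnion h2 (haC _ (hAY _ h2))⟩
      simp only [g, if_pos this, map_add, h, he1, zero_add]
    · have : y ∉ W := fun hw => by
        obtain ⟨a, ha, hya⟩ := mem_iUnion₂.1 hw.1
        exact hCY a (hAY a ha) hya ⟨hy, h⟩
      simp only [g, if_neg this, h]
  obtain ⟨u, hu, f, hf, hguf⟩ := HF ⟨g, hg⟩
  have hguf' : ∀ x, g x = u.1 (f.1 x) := fun x => congrFun hguf x
  have hsurj := hco f.1 (g ∘ u.1) f.2 (hg.comp u.2) fun x => by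
    simp only [Function.comp, ← hguf', hgg]
  have h1 := hgY (z f) ⟨f, hf, rfl⟩
  rw [hguf', hz f (hsurj 0)] at h1
  exact zero_ne_one (hu.symm.trans h1)

theorem exists_space : ∃ X : Submodule (ZMod 2) (ℕ → ZMod 2),
    (∀ (x : X) (U : Set X), IsOpen U → x ∈ U → ∃ C, IsClopen C ∧ x ∈ C ∧ C ⊆ U) ∧
    ¬ ∀ U ∈ 𝓝 (⟨id, continuous_id⟩ : {f : X → X // Continuous f}),
      ∃ F : Set {f : X → X // Continuous f}, F.Finite ∧
        ∀ g : {f : X → X // Continuous f}, ∃ u ∈ U, ∃ f ∈ F, g.1 = u.1 ∘ f.1 := by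
  have : PolishSpace (ℕ → ZMod 2) := {}
  have : (𝓝[≠] (0 : ℕ → ZMod 2)).NeBot := by
    rw [← mem_closure_iff_nhdsWithin_neBot]
    refine mem_closure_of_tendsto (b := atTop)
      (f := fun n : ℕ => (Pi.single n 1 : ℕ → ZMod 2)) ?_ (Eventually.of_forall fun n h => ?_)
    · refine tendsto_pi_nhds.2 fun i => tendsto_const_nhds.congr' ?_
      filter_upwards [eventually_gt_atTop i] with n hn
      rw [Pi.single_eq_of_ne hn.ne]
      rfl
    · have := congrFun h n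
      simp at this
  obtain ⟨X, hX⟩ := exists_subgroup_closed (G := ℕ → ZMod 2)
  have hX' : Sep X := hX
  let μ : Measure (ℕ → ZMod 2) := Measure.addHaar
  have hb : ∀ (x : X) (U : Set X), IsOpen U → x ∈ U → ∃ C, IsClopen C ∧ x ∈ C ∧ C ⊆ U := by
    intro x U hU hx
    obtain ⟨O, hO, rfl⟩ := isOpen_induced_iff.1 hU
    obtain ⟨C, hC, hxC, hCO⟩ :=
      (isTopologicalBasis_isClopen (X := ℕ → ZMod 2)).exists_subset_of_mem_open
        (show (x : ℕ → ZMod 2) ∈ O from hx) hO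
    exact ⟨Subtype.val ⁻¹' C, IsClopen.preimage hC continuous_subtype_val, hxC,
      preimage_mono hCO⟩
  refine ⟨X, hb, not_bounded hb
    ((Pi.evalAddMonoidHom (fun _ : ℕ => ZMod 2) 0).comp X.subtype.toAddMonoidHom)
    ((continuous_apply 0).comp continuous_subtype_val) (fun Y hY => ?_)
    fun f u hf hu huf => hX'.surjective μ hf hu huf⟩
  by_contra hcon
  push Not at hcon
  have hO : IsOpen {x : ℕ → ZMod 2 | x 0 = 1} :=
    (isOpen_discrete {(1 : ZMod 2)}).preimage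
      (show Continuous fun x : ℕ → ZMod 2 => x 0 from continuous_apply 0)
  have hO' : IsClosed {x : ℕ → ZMod 2 | x 0 = 1}ᶜ := hO.isClosed_compl
  have hfin : (Subtype.val '' Y).Finite := hY.image _
  have h1 : {x : ℕ → ZMod 2 | x 0 = 1}ᶜ ∪ Subtype.val '' Y = univ := by
    refine hX'.eq_univ μ (hO'.union hfin.isClosed) fun x hx => ?_
    by_cases h : x 0 = 1
    · exact Or.inr ⟨⟨x, hx⟩, hcon ⟨x, hx⟩ h, rfl⟩
    · exact Or.inl h
  have h2 : {x : ℕ → ZMod 2 | x 0 = 1} ⊆ Subtype.val '' Y := fun x hx =>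
    (h1 ▸ mem_univ x : x ∈ {x : ℕ → ZMod 2 | x 0 = 1}ᶜ ∪ Subtype.val '' Y).resolve_left
      fun h => h hx
  exact (hO.measure_pos μ ⟨fun _ => 1, rfl⟩).ne'
    (measure_mono_null h2 (hfin.countable.measure_zero μ))

end Pool.Agent.P.MP_19f369_gt
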